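import Pool.Agent.Helper40.JZ.Stmts
import Pool.Agent.Helper30.BZ.AEQ

/-!
All orbits of all powers of the skew product are equidistributed (MP_7a8f48_an).
-/

open Finset Filter MeasureTheory Topology
open scoped ComplexConjugate

namespace Pool.Agent.Helper98.JZ

open Pool.Agent.Helper40.JZ
open Pool.Agent.Helper16.AZ (T mm Ind)
open Pool.Agent.Helper16.BZ (EQ aeq_int aeq_zero aeq_norm aeq_add)
open UnitAddTorus (mFourier)

/-- it is enough to consider the characters -/
theorem eq_of_char {r : ℕ} {S : T r → T r} {p : ℕ} (hch : ∀ X : Fin r → ℤ, X ≠ 0 → ∀ x : T r,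
    Tendsto (fun N : ℕ => (∑ n ∈ range N, mFourier X (S^[p * n] x)) / (N : ℂ)) atTop (𝓝 0))
    (F : T r → ℂ) (hF : Continuous F) (x₀ : T r) :
    Tendsto (fun N : ℕ => (∑ n ∈ range N, F (S^[p * n] x₀)) / (N : ℂ)) atTop
      (𝓝 (∫ y, F y ∂(mm r))) := by
  have hint : ∀ G : C(T r, ℂ), Integrable (fun θ => G θ) (mm r) := fun G =>
    G.continuous.integrable_of_hasCompactSupport (HasCompactSupport.of_compactSpace _)
  let W : Submodule ℂ C(T r, ℂ) :=
    { carrier := {G | ∀ x : T r, Tendsto (fun N : ℕ => (∑ n ∈ range N, G (S^[p * n] x)) /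
        (N : ℂ)) atTop (𝓝 (∫ θ, G θ ∂(mm r)))}
      add_mem' := by
        intro G₁ G₂ h1 h2 x
        have h3 := (h1 x).add (h2 x)
        have e : ∫ θ, (G₁ + G₂) θ ∂(mm r) = ∫ θ, G₁ θ ∂(mm r) + ∫ θ, G₂ θ ∂(mm r) :=
          integral_add (hint G₁) (hint G₂)
        rw [e]
        refine h3.congr fun N => ?_
        simp only [ContinuousMap.add_apply, Finset.sum_add_distrib, add_div]
      zero_mem' := by
        intro x
        simp
      smul_mem' := by
        intro c G h1 x
        have h3 := (h1 x).const_mul c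
        have e : ∫ θ, (c • G) θ ∂(mm r) = c * ∫ θ, G θ ∂(mm r) := by
          rw [← integral_const_mul]
          rfl
        rw [e]
        refine h3.congr fun N => ?_
        simp only [ContinuousMap.smul_apply, smul_eq_mul, ← Finset.mul_sum, mul_div_assoc] }
  have hW1 : Submodule.span ℂ (Set.range (mFourier (d := Fin r))) ≤ W := by
    rw [Submodule.span_le]
    rintro _ ⟨X, rfl⟩ x
    by_cases hX : X = 0
    · subst hX
      simp only [aeq_zero]
      rw [integral_const, probReal_univ, one_smul]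
      refine tendsto_const_nhds.congr' ?_
      filter_upwards [eventually_gt_atTop 0] with N hN
      have : (N : ℂ) ≠ 0 := by exact_mod_cast hN.ne'
      simp [this]
    · rw [aeq_int X hX]
      exact hch X hX x
  have hW2 : (⟨F, hF⟩ : C(T r, ℂ)) ∈ W.topologicalClosure := by
    have h1 : (Submodule.span ℂ (Set.range (mFourier (d := Fin r)))).topologicalClosure ≤
        W.topologicalClosure := Submodule.topologicalClosure_mono hW1
    rw [UnitAddTorus.span_mFourier_closure_eq_top] at h1
    exact h1 trivial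
  have hW3 : (⟨F, hF⟩ : C(T r, ℂ)) ∈ closure (W : Set C(T r, ℂ)) := hW2
  rw [Metric.mem_closure_iff] at hW3
  rw [Metric.tendsto_atTop]
  intro ε hε
  obtain ⟨G, hG, hd⟩ := hW3 (ε / 4) (by positivity)
  have hG2 := hG x₀
  rw [Metric.tendsto_atTop] at hG2
  obtain ⟨N₀, hN₀⟩ := hG2 (ε / 4) (by positivity)
  refine ⟨N₀, fun N hN => ?_⟩
  have hpp : ∀ θ : T r, ‖F θ - G θ‖ ≤ ε / 4 := by
    intro θ
    have h1 := ContinuousMap.dist_apply_le_dist (f := (⟨F, hF⟩ : C(T r, ℂ))) (g := G) θ
    have h2 : dist (F θ) (G θ) ≤ ε / 4 := h1.trans hd.le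
    rwa [dist_eq_norm] at h2
  have h1 : ‖(∑ n ∈ range N, F (S^[p * n] x₀)) / (N : ℂ) -
      (∑ n ∈ range N, G (S^[p * n] x₀)) / (N : ℂ)‖ ≤ ε / 4 := by
    rw [← sub_div, ← Finset.sum_sub_distrib, norm_div, Complex.norm_natCast]
    rcases Nat.eq_zero_or_pos N with h0 | h0
    · subst h0
      simp
      positivity
    · have h0' : (0 : ℝ) < N := by exact_mod_cast h0
      rw [div_le_iff₀ h0']
      refine (norm_sum_le _ _).trans ?_
      refine (Finset.sum_le_sum fun n _ => hpp _).trans ?_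
      rw [Finset.sum_const, card_range, nsmul_eq_mul, mul_comm]
  have h2 : ‖∫ θ, F θ ∂(mm r) - ∫ θ, G θ ∂(mm r)‖ ≤ ε / 4 := by
    have e : ∫ θ, F θ ∂(mm r) - ∫ θ, G θ ∂(mm r) = ∫ θ, (F θ - G θ) ∂(mm r) :=
      (integral_sub (hint ⟨F, hF⟩) (hint G)).symm
    rw [e]
    refine (norm_integral_le_of_norm_le_const (Eventually.of_forall hpp)).trans ?_
    rw [probReal_univ, mul_one]
  have h3 := hN₀ N hN
  rw [dist_eq_norm] at h3 ⊢
  have e : (∑ n ∈ range N, F (S^[p * n] x₀)) / (N : ℂ) - ∫ θ, F θ ∂(mm r) =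
      ((∑ n ∈ range N, F (S^[p * n] x₀)) / (N : ℂ) -
        (∑ n ∈ range N, G (S^[p * n] x₀)) / (N : ℂ)) +
      ((∑ n ∈ range N, G (S^[p * n] x₀)) / (N : ℂ) - ∫ θ, G θ ∂(mm r)) -
      (∫ θ, F θ ∂(mm r) - ∫ θ, G θ ∂(mm r)) := by ring
  rw [e]
  refine (norm_sub_le _ _).trans_lt ?_
  have h4 := norm_add_le ((∑ n ∈ range N, F (S^[p * n] x₀)) / (N : ℂ) -
    (∑ n ∈ range N, G (S^[p * n] x₀)) / (N : ℂ))
    ((∑ n ∈ range N, G (S^[p * n] x₀)) / (N : ℂ) - ∫ θ, G θ ∂(mm r))
  linarith


/-- a character at a point of the product -/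
theorem mF_sn {r : ℕ} (Y : Fin (r + 1) → ℤ) (x : T r) (k : U) :
    mFourier Y (sn x k) = mFourier (fun i => Y i.castSucc) x * fourier (Y (Fin.last r)) k := by
  show ∏ i, fourier (Y i) (sn x k i) = (∏ i, fourier (Y i.castSucc) (x i)) * _
  rw [Fin.prod_univ_castSucc]
  simp [sn]

theorem cs_mul {r : ℕ} (θ : T r) (f : T r → U) (p n : ℕ) (x : T r) :
    cs θ f (p * n) x = cs (p • θ) (fun y => cs θ f p y) n x := by
  induction n with
  | zero => simp [cs_zero]
  | succ n ih => rw [mul_add, mul_one, cs_add, ih, cs_succ, mul_nsmul]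

theorem cs_smul {r : ℕ} (θ : T r) (f : T r → U) (a : ℤ) (n : ℕ) (x : T r) :
    cs θ (fun y => a • f y) n x = a • cs θ f n x := by
  simp [cs, Finset.smul_sum]

theorem continuous_cs {r : ℕ} (θ : T r) {f : T r → U} (hf : Continuous f) (n : ℕ) :
    Continuous (cs θ f n) := by
  unfold cs
  exact continuous_finsetSum _ fun j _ => hf.comp (continuous_id.add continuous_const)

theorem four_one (a : ℤ) (t : U) : (fourier a t : ℂ) = fourier 1 (a • t) := by
  simp [fourier_apply]

theorem four_add' (j : ℤ) (x y : U) : (fourier j (x + y) : ℂ) = fourier j x * fourier j y := by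
  simp [fourier_apply, smul_add, AddCircle.toCircle_add]

/-- the value of a character along the orbit -/
theorem mF_orbit {r : ℕ} (θ : T r) (f : T r → U) (p n : ℕ) (Y : Fin (r + 1) → ℤ) (x : T r)
    (k : U) : mFourier Y ((SA θ f)^[p * n] (sn x k)) = fourier (Y (Fin.last r)) k *
      (fourier 1 (cs (p • θ) (fun z => Y (Fin.last r) • cs θ f p z) n x) *
        mFourier (fun i => Y i.castSucc) (x + n • (p • θ))) := by
  rw [SA_iterate, mF_sn, four_add', cs_mul, cs_smul, mul_nsmul, ← four_one]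
  ring

end Pool.Agent.Helper98.JZ

namespace Pool.Agent.Helper40.JZ

open Pool.Agent.Helper16.AZ (T mm Ind)
open Pool.Agent.Helper16.BZ (EQ aeq_int aeq_zero aeq_norm aeq_add)
open Pool.Agent.Helper98.JZ
open UnitAddTorus (mFourier)

/-- EQA -/
theorem st_EQA (hERG : ST_ERG) (hPOW : ST_POW) (hCOB : ST_COB) : ST_EQA := by
  intro r θ f hθ hf hN p hp F hF y₀
  refine eq_of_char (fun Y hY y => ?_) F hF y₀
  rw [← sn_ini_las y]
  set x := ini y
  set k := las y
  simp only [mF_orbit, ← Finset.mul_sum]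
  set a : ℤ := Y (Fin.last r) with ha
  set X : Fin r → ℤ := fun i => Y i.castSucc with hX
  have hβ : Ind (p • θ) := (hERG r θ hθ).1 p hp
  have hl : Continuous fun z => a • cs θ f p z := (continuous_cs θ hf p).const_smul a
  have hg : Continuous fun z : T r => mFourier X z := (mFourier X).continuous
  have hC := hCOB r (p • θ) hβ (fun z => a • cs θ f p z) (fun z => mFourier X z) x hl hg
  have key : Tendsto (fun M : ℕ => (∑ n ∈ range M, fourier 1
      (cs (p • θ) (fun z => a • cs θ f p z) n x) * mFourier X (x + n • (p • θ))) / (M : ℂ))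
      atTop (𝓝 0) := by
    by_cases h0 : a = 0
    · have hX0 : X ≠ 0 := by
        intro h1
        apply hY
        funext i
        refine Fin.lastCases ?_ (fun j => ?_) i
        · rw [← ha, h0]; rfl
        · exact congrFun h1 j
      have h2 := hC.2 (fun _ => 0) measurable_const (Eventually.of_forall fun z => by simp [h0])
      have h3 : ∫ z, (fourier 1 ((0 : U)) : ℂ) * mFourier X z ∂(mm r) = 0 := by
        rw [integral_const_mul, aeq_int X hX0, mul_zero]
      simp only [h3, norm_zero, zero_add] at h2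
      rw [Metric.tendsto_atTop]
      intro ε hε
      have h4 := h2 (ε / 2) (by positivity)
      obtain ⟨N₀, hN₀⟩ := eventually_atTop.1 h4
      refine ⟨N₀, fun M hM => ?_⟩
      rw [dist_eq_norm, sub_zero, norm_div, Complex.norm_natCast]
      rcases Nat.eq_zero_or_pos M with hM0 | hM0
      · subst hM0
        simpa using hε
      · have hM1 : (0 : ℝ) < M := by exact_mod_cast hM0
        rw [div_lt_iff₀ hM1]
        have h5 := hN₀ M hM
        nlinarith
    · refine hC.1 fun u hu h1 => ?_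
      obtain ⟨ω, hω, h2⟩ := hPOW r θ hθ p (fun z => a • f z) u hp (hf.measurable.const_smul a) hu
        (by
          filter_upwards [h1] with z hz
          rw [hz, cs_smul])
      refine hN (p * a) (mul_ne_zero (by exact_mod_cast (by omega : p ≠ 0)) h0)
        (fun z => -(p • u z)) (hu.const_smul p).neg ?_
      filter_upwards [h2] with z hz
      rw [hz, smul_add, smul_add, hω, zero_add, mul_smul, natCast_zsmul]
      abel
  have h6 := key.const_mul (fourier a k : ℂ)
  rw [mul_zero] at h6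
  refine h6.congr fun N => ?_
  rw [mul_div_assoc]

end Pool.Agent.Helper40.JZ
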