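import Pool.Agent.Helper98.JZ.PRJ

/-!
The bound for the trivial resonance, with the integrals separated (MP_7a8f48_an).
-/

open Finset Filter MeasureTheory Topology
open scoped ComplexConjugate

namespace Pool.Agent.Helper98.JZ

open Pool.Agent.Helper40.JZ
open Pool.Agent.Helper16.AZ (T mm)

/-- the multiplication by `p` preserves the measure -/
theorem mp_mul {r p : ℕ} (hp : 1 ≤ p) (x₀ : T r) :
    MeasurePreserving (fun z : T r => x₀ + p • z) (mm r) (mm r) := by
  have h1 : MeasurePreserving (nsmulAddMonoidHom p : T r →+ T r) (mm r) (mm r) := by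
    refine AddMonoidHom.measurePreserving ?_ ?_ rfl
    · exact continuous_id.const_smul p
    · intro t
      have h2 : ∀ i, ∃ x : ℝ, (x : U) = t i := fun i => QuotientAddGroup.mk_surjective (t i)
      choose x hx using h2
      refine ⟨fun i => ((x i / p : ℝ) : U), ?_⟩
      funext i
      have hp0 : (p : ℝ) ≠ 0 := by exact_mod_cast (by omega : p ≠ 0)
      change p • ((x i / p : ℝ) : U) = t i
      rw [← AddCircle.coe_nsmul, nsmul_eq_mul, mul_div_cancel₀ _ hp0, hx]
  exact (measurePreserving_add_left (mm r) x₀).comp h1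

theorem int_mul {r p : ℕ} (hp : 1 ≤ p) (x₀ : T r) {g : T r → ℂ} (hg : MemLp g 2 (mm r)) :
    ∫ z, g (x₀ + p • z) ∂(mm r) = ∫ z, g z ∂(mm r) := by
  have hmp := mp_mul hp x₀
  have h7 : AEStronglyMeasurable g (Measure.map (fun z : T r => x₀ + p • z) (mm r)) := by
    rw [hmp.map_eq]
    exact hg.aestronglyMeasurable
  have h8 := integral_map hmp.measurable.aemeasurable h7
  rw [hmp.map_eq] at h8
  exact h8.symm

/-- the average over the torsion points without the factors -/
theorem pj_zero {r q : ℕ} (j : ℤ) (g : T r → ℂ) (x : T r) :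
    pj q (fun _ _ => 0) j g x = (∑ s ∈ tor r q, g (x + s)) / (q : ℂ) ^ r := by
  simp [pj, fourier_apply]

theorem int_pj {r q : ℕ} (hq : 1 ≤ q) (hcard : (tor r q).card = q ^ r) {g : T r → ℂ}
    (hg : MemLp g 2 (mm r)) :
    ∫ x, pj q (fun _ _ => 0) 0 g x ∂(mm r) = ∫ x, g x ∂(mm r) := by
  have hqr : ((q : ℂ) ^ r) ≠ 0 := by
    have : (q : ℂ) ≠ 0 := by exact_mod_cast (by omega : q ≠ 0)
    exact pow_ne_zero _ this
  simp only [pj_zero]
  rw [integral_div, integral_finsetSum]
  · have h : ∀ s ∈ tor r q, ∫ x, g (x + s) ∂(mm r) = ∫ x, g x ∂(mm r) := fun s _ =>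
      integral_add_right_eq_self (μ := mm r) g s
    rw [sum_congr rfl h, sum_const, hcard, nsmul_eq_mul]
    push_cast
    field_simp
  · intro s _
    exact (measurePreserving_add_right (mm r) s).integrable_comp_of_integrable
      (hg.integrable one_le_two)

theorem pj_sub {r q : ℕ} (hq : 1 ≤ q) (hcard : (tor r q).card = q ^ r) (g : T r → ℂ) (m : ℂ) :
    pj q (fun _ _ => 0) 0 (fun x => g x - m) = fun x => pj q (fun _ _ => 0) 0 g x - m := by
  have hqr : ((q : ℂ) ^ r) ≠ 0 := by
    have : (q : ℂ) ≠ 0 := by exact_mod_cast (by omega : q ≠ 0)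
    exact pow_ne_zero _ this
  funext x
  rw [pj_zero, pj_zero, sum_sub_distrib, sum_const, hcard, nsmul_eq_mul]
  push_cast
  field_simp

/-- the square norm of a function minus its mean -/
theorem sq_sub {r : ℕ} {h : T r → ℂ} (hh : MemLp h 2 (mm r)) (m : ℂ)
    (hm : ∫ x, h x ∂(mm r) = m) :
    ∫ x, ‖h x - m‖ ^ 2 ∂(mm r) = ∫ x, ‖h x‖ ^ 2 ∂(mm r) - ‖m‖ ^ 2 := by
  have hi : Integrable h (mm r) := hh.integrable one_le_two
  have h2 : Integrable (fun x => ‖h x‖ ^ 2) (mm r) := by
    simpa using hh.integrable_norm_pow (p := 2) (by norm_num)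
  have h3 : ∀ x, ‖h x - m‖ ^ 2 = ‖h x‖ ^ 2 + ‖m‖ ^ 2 - 2 * (h x * conj m).re := by
    intro x
    rw [← Complex.normSq_eq_norm_sq, ← Complex.normSq_eq_norm_sq, ← Complex.normSq_eq_norm_sq,
      Complex.normSq_sub]
  simp only [h3]
  have h4 : Integrable (fun x => (h x * conj m)) (mm r) := hi.mul_const _
  have h5 : Integrable (fun x => 2 * (h x * conj m).re) (mm r) := (h4.re).const_mul 2
  have h9 : Integrable (fun x => ‖h x‖ ^ 2 + ‖m‖ ^ 2) (mm r) := h2.add (integrable_const _)
  rw [integral_sub h9 h5, integral_add h2 (integrable_const _), integral_const_mul]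
  have h6 : ∫ x, (h x * conj m).re ∂(mm r) = (m * conj m).re := by
    have h7 := integral_re h4
    have h8 : ∫ x, h x * conj m ∂(mm r) = m * conj m := by
      rw [integral_mul_const, hm]
    rw [h8] at h7
    exact h7
  rw [h6, Complex.mul_conj]
  simp only [integral_const, Complex.ofReal_re, Complex.normSq_eq_norm_sq]
  simp
  ring

end Pool.Agent.Helper98.JZ

namespace Pool.Agent.Helper40.JZ

open Pool.Agent.Helper16.AZ (T mm)
open Pool.Agent.Helper98.JZ

/-- PRB -/
theorem st_PRB (hTOR : ST_TOR) (hMSF : ST_MSF) (hPRJ : ST_PRJ) : ST_PRB := by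
  intro r p q x₀ g g' hp hq hpq hg hg'
  obtain ⟨hTq, hcq, -, hsq, -⟩ := hTOR r q hq.one_lt.le
  obtain ⟨hTp, hcp, -, hsp, -⟩ := hTOR r p hp.one_lt.le
  have hp1 := hp.one_lt.le
  have hq1 := hq.one_lt.le
  set m : ℂ := ∫ x, g x ∂(mm r) with hm
  set m' : ℂ := ∫ x, g' x ∂(mm r) with hm'
  have hG : MemLp (pj q (fun _ _ => 0) 0 g) 2 (mm r) :=
    (hMSF r q (fun _ _ => 0) 0 g g hq1 (fun _ _ => measurable_const) hg hg).1
  have hG' : MemLp (pj p (fun _ _ => 0) 0 g') 2 (mm r) :=
    (hMSF r p (fun _ _ => 0) 0 g' g' hp1 (fun _ _ => measurable_const) hg' hg').1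
  have hms : ms q (fun _ _ => 0) 0 (fun x => g x - m) = ms q (fun _ _ => 0) 0 g - ‖m‖ ^ 2 := by
    unfold ms
    rw [pj_sub hq1 hcq]
    exact sq_sub hG m (int_pj hq1 hcq hg)
  have hms' : ms p (fun _ _ => 0) 0 (fun x => g' x - m') =
      ms p (fun _ _ => 0) 0 g' - ‖m'‖ ^ 2 := by
    unfold ms
    rw [pj_sub hp1 hcp]
    exact sq_sub hG' m' (int_pj hp1 hcp hg')
  have hpos : 0 ≤ ms q (fun _ _ => 0) 0 (fun x => g x - m) :=
    integral_nonneg fun x => by positivity
  refine ⟨by linarith, ?_⟩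
  have hg0 : MemLp (fun x => g x - m) 2 (mm r) := hg.sub (memLp_const m)
  have hg0' : MemLp (fun x => g' x - m') 2 (mm r) := hg'.sub (memLp_const m')
  have h1 := hPRJ r p q x₀ (fun _ => 0) (fun _ _ => 0) (fun _ _ => 0) 0 _ _ hp hq hpq
    measurable_const (fun _ _ => measurable_const) (fun s _ => by simp)
    (fun _ _ => measurable_const) (fun s _ => by simp) hg0 hg0'
  rw [hms, hms'] at h1
  have hgp : MemLp (fun z => g (x₀ + p • z)) 2 (mm r) := hg.comp_measurePreserving (mp_mul hp1 x₀)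
  have hgq : MemLp (fun z => g' (x₀ + q • z)) 2 (mm r) :=
    hg'.comp_measurePreserving (mp_mul hq1 x₀)
  have hI0 : Integrable (fun z => g (x₀ + p • z) * conj (g' (x₀ + q • z))) (mm r) :=
    hgp.integrable_mul hgq.star
  have hIp : Integrable (fun z => g (x₀ + p • z)) (mm r) := hgp.integrable one_le_two
  have hIq : Integrable (fun z => conj (g' (x₀ + q • z))) (mm r) := hgq.star.integrable one_le_two
  have h2 : ∫ z, fourier 0 ((fun _ : T r => (0 : U)) z) * ((g (x₀ + p • z) - m) *
      conj (g' (x₀ + q • z) - m')) ∂(mm r) =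
      ∫ z, g (x₀ + p • z) * conj (g' (x₀ + q • z)) ∂(mm r) - m * conj m' := by
    have h3 : ∀ z, (fourier 0 ((fun _ : T r => (0 : U)) z) : ℂ) * ((g (x₀ + p • z) - m) *
        conj (g' (x₀ + q • z) - m')) = g (x₀ + p • z) * conj (g' (x₀ + q • z)) -
          (conj m' * g (x₀ + p • z) + m * conj (g' (x₀ + q • z)) - m * conj m') := by
      intro z
      simp only [fourier_zero, one_mul, map_sub]
      ring
    simp only [h3]
    have k1 : Integrable (fun z => conj m' * g (x₀ + p • z)) (mm r) := hIp.const_mul _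
    have k2 : Integrable (fun z => m * conj (g' (x₀ + q • z))) (mm r) := hIq.const_mul _
    have k3 : Integrable (fun z => conj m' * g (x₀ + p • z) + m * conj (g' (x₀ + q • z)))
        (mm r) := k1.add k2
    have k4 : Integrable (fun z => conj m' * g (x₀ + p • z) + m * conj (g' (x₀ + q • z)) -
        m * conj m') (mm r) := k3.sub (integrable_const _)
    rw [integral_sub hI0 k4, integral_sub k3 (integrable_const _),
      integral_add k1 k2, integral_const_mul, integral_const_mul,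
      int_mul hp1 x₀ hg, integral_conj, int_mul hq1 x₀ hg', ← hm, ← hm']
    simp only [integral_const, probReal_univ, one_smul]
    ring
  rw [h2] at h1
  calc ‖∫ z, g (x₀ + p • z) * conj (g' (x₀ + q • z)) ∂(mm r)‖
      = ‖m * conj m' + (∫ z, g (x₀ + p • z) * conj (g' (x₀ + q • z)) ∂(mm r) - m * conj m')‖ := by
        congr 1; ring
    _ ≤ ‖m * conj m'‖ + ‖∫ z, g (x₀ + p • z) * conj (g' (x₀ + q • z)) ∂(mm r) - m * conj m'‖ :=
        norm_add_le _ _
    _ ≤ _ := by
        rw [norm_mul, RCLike.norm_conj]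
        linarith

end Pool.Agent.Helper40.JZ
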