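import Pool.Agent.Helper40.JZ.Stmts

/-!
The integral of a resonant pair is bounded by the masses (MP_7a8f48_an).
-/

open Finset Filter MeasureTheory Topology
open scoped ComplexConjugate

namespace Pool.Agent.Helper98.JZ

open Pool.Agent.Helper40.JZ
open Pool.Agent.Helper16.AZ (T mm)

/-- the Cauchy-Schwarz inequality -/
theorem cauchy {r : ℕ} {F G : T r → ℂ} (hF : MemLp F 2 (mm r)) (hG : MemLp G 2 (mm r)) :
    ∫ z, ‖F z‖ * ‖G z‖ ∂(mm r) ≤
      Real.sqrt (∫ z, ‖F z‖ ^ 2 ∂(mm r)) * Real.sqrt (∫ z, ‖G z‖ ^ 2 ∂(mm r)) := by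
  have h := integral_mul_norm_le_Lp_mul_Lq (μ := mm r) (f := F) (g := G)
    (Real.holderConjugate_iff.2 ⟨by norm_num, by norm_num⟩ : (2 : ℝ).HolderConjugate 2)
    (by simpa using hF) (by simpa using hG)
  simpa [Real.sqrt_eq_rpow] using h

/-- additivity of the characters -/
theorem four_add (j : ℤ) (x y : U) : (fourier j (x + y) : ℂ) = fourier j x * fourier j y := by
  simp [fourier_apply, smul_add, AddCircle.toCircle_add]

theorem four_neg (j : ℤ) (x : U) : (fourier j (-x) : ℂ) = conj (fourier j x : ℂ) := by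
  rw [← fourier_neg]
  simp [fourier_apply]

theorem norm_four (j : ℤ) (x : U) : ‖(fourier j x : ℂ)‖ = 1 := by
  simp [fourier_apply]

theorem meas_four {r : ℕ} (j : ℤ) {u : T r → U} (hu : Measurable u) :
    Measurable fun z => (fourier j (u z) : ℂ) :=
  (fourier (T := 1) j).continuous.measurable.comp hu

/-- the product is integrable -/
theorem int_prod {r : ℕ} (j : ℤ) {u : T r → U} (hu : Measurable u) {g h : T r → ℂ}
    (hg : MemLp g 2 (mm r)) (hh : MemLp h 2 (mm r)) :
    Integrable (fun z => fourier j (u z) * (g z * h z)) (mm r) := by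
  have h1 : Integrable (fun z => g z * h z) (mm r) := hg.integrable_mul hh
  exact h1.bdd_mul (c := 1) (meas_four j hu).aestronglyMeasurable
    (Eventually.of_forall fun z => (norm_four j (u z)).le)

/-- averaging over the torsion points -/
theorem avg {r p q : ℕ} (x₀ : T r) (hq : 1 ≤ q)
    (hcard : (tor r q).card = q ^ r)
    (hsum : ∀ F : T r → ℂ, ∑ s ∈ tor r q, F (p • s) = ∑ s ∈ tor r q, F s)
    (hmp : MeasurePreserving (fun z : T r => x₀ + p • z) (mm r) (mm r))
    {u : T r → U} {D : T r → T r → U} (j : ℤ) {g h : T r → ℂ} (hu : Measurable u)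
    (hrel : ∀ s ∈ tor r q, ∀ᵐ z ∂(mm r), u (z + s) = D (p • s) (x₀ + p • z) + u z)
    (hg : MemLp g 2 (mm r)) (hh : MemLp h 2 (mm r))
    (hinv : ∀ s ∈ tor r q, ∀ z, h (z + s) = h z) :
    ∫ z, fourier j (u z) * (g (x₀ + p • z) * h z) ∂(mm r) =
      ∫ z, fourier j (u z) * (pj q D j g (x₀ + p • z) * h z) ∂(mm r) := by
  set F : T r → ℂ := fun z => fourier j (u z) * (g (x₀ + p • z) * h z) with hF
  have hgp : MemLp (fun z => g (x₀ + p • z)) 2 (mm r) := hg.comp_measurePreserving hmp
  have hFi : Integrable F (mm r) := int_prod j hu hgp hh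
  have hmpa : ∀ s : T r, MeasurePreserving (fun z : T r => z + s) (mm r) (mm r) := fun s =>
    measurePreserving_add_right (mm r) s
  have hFs : ∀ s ∈ tor r q, (fun z => F (z + s)) =ᵐ[mm r] fun z =>
      fourier j (u z) * ((fourier j (D (p • s) (x₀ + p • z)) * g (x₀ + p • z + p • s)) * h z) := by
    intro s hs
    filter_upwards [hrel s hs] with z hz
    simp only [hF]
    rw [hz, four_add, hinv s hs z, smul_add, add_assoc]
    ring
  have hint : ∀ s ∈ tor r q, Integrable (fun z => fourier j (u z) *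
      ((fourier j (D (p • s) (x₀ + p • z)) * g (x₀ + p • z + p • s)) * h z)) (mm r) := by
    intro s hs
    exact ((hmpa s).integrable_comp_of_integrable hFi).congr (hFs s hs)
  have heq : ∀ s ∈ tor r q, ∫ z, fourier j (u z) *
      ((fourier j (D (p • s) (x₀ + p • z)) * g (x₀ + p • z + p • s)) * h z) ∂(mm r) =
      ∫ z, F z ∂(mm r) := by
    intro s hs
    rw [← integral_congr_ae (hFs s hs)]
    exact integral_add_right_eq_self (μ := mm r) F s
  have hqr : ((q : ℂ) ^ r) ≠ 0 := by
    have : (q : ℂ) ≠ 0 := by exact_mod_cast (by omega : q ≠ 0)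
    exact pow_ne_zero _ this
  have h1 : ∫ z, ∑ s ∈ tor r q, fourier j (u z) *
      ((fourier j (D (p • s) (x₀ + p • z)) * g (x₀ + p • z + p • s)) * h z) ∂(mm r) =
      (q : ℂ) ^ r * ∫ z, F z ∂(mm r) := by
    rw [integral_finsetSum _ hint, sum_congr rfl heq, sum_const, hcard, nsmul_eq_mul]
    push_cast
    rfl
  have h2 : ∀ z, ∑ s ∈ tor r q, fourier j (u z) *
      ((fourier j (D (p • s) (x₀ + p • z)) * g (x₀ + p • z + p • s)) * h z) =
      (q : ℂ) ^ r * (fourier j (u z) * (pj q D j g (x₀ + p • z) * h z)) := by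
    intro z
    rw [← mul_sum, ← sum_mul,
      hsum (fun s => fourier j (D s (x₀ + p • z)) * g (x₀ + p • z + s))]
    unfold pj
    field_simp
  simp only [h2, integral_const_mul] at h1
  exact (mul_left_cancel₀ hqr h1).symm

end Pool.Agent.Helper98.JZ

namespace Pool.Agent.Helper40.JZ

open Pool.Agent.Helper16.AZ (T mm)
open Pool.Agent.Helper98.JZ

/-- PRJ -/
theorem st_PRJ (hTOR : ST_TOR) (hMPZ : ST_MPZ) (hMSF : ST_MSF) : ST_PRJ := by
  intro r p q x₀ u D D' j g g' hp hq hpq hu hD hrel hD' hrel' hg hg'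
  obtain ⟨hTq, hcq, -, hsq, -⟩ := hTOR r q hq.one_lt.le
  obtain ⟨hTp, hcp, -, hsp, -⟩ := hTOR r p hp.one_lt.le
  have hmp := (hMPZ r p hp.one_lt.le).1 x₀
  have hmq := (hMPZ r q hq.one_lt.le).1 x₀
  have hcop : Nat.Coprime p q := (Nat.coprime_primes hp hq).2 hpq
  have hG : MemLp (pj q D j g) 2 (mm r) := (hMSF r q D j g g hq.one_lt.le hD hg hg).1
  have hG' : MemLp (pj p D' j g') 2 (mm r) := (hMSF r p D' j g' g' hp.one_lt.le hD' hg' hg').1
  have hG2 : MemLp (fun z => pj q D j g (x₀ + p • z)) 2 (mm r) := hG.comp_measurePreserving hmp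
  have hG2' : MemLp (fun z => pj p D' j g' (x₀ + q • z)) 2 (mm r) :=
    hG'.comp_measurePreserving hmq
  have hg2' : MemLp (fun z => g' (x₀ + q • z)) 2 (mm r) := hg'.comp_measurePreserving hmq
  have h1 := avg (p := p) (q := q) x₀ hq.one_lt.le hcq (hsq p hcop) hmp
    (h := fun z => conj (g' (x₀ + q • z))) j hu hrel hg hg2'.star (by
      intro s hs z
      have : q • s = 0 := (hTq s).1 hs
      simp only [smul_add, this, add_zero])
  have h2 := avg (p := q) (q := p) x₀ hp.one_lt.le hcp (hsp q hcop.symm) hmq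
    (u := fun z => -u z) (D := D') (g := g')
    (h := fun z => conj (pj q D j g (x₀ + p • z))) j hu.neg hrel' hg' hG2.star (by
      intro s hs z
      have : p • s = 0 := (hTp s).1 hs
      simp only [smul_add, this, add_zero])
  have h3 : ∫ z, fourier j (u z) * (pj q D j g (x₀ + p • z) * conj (g' (x₀ + q • z))) ∂(mm r) =
      ∫ z, fourier j (u z) * (pj q D j g (x₀ + p • z) *
        conj (pj p D' j g' (x₀ + q • z))) ∂(mm r) := by
    have h4 := congrArg conj h2
    rw [← integral_conj, ← integral_conj] at h4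
    refine Eq.trans ?_ (h4.trans ?_)
    · refine integral_congr_ae (Eventually.of_forall fun z => ?_)
      simp only [four_neg, map_mul, Complex.conj_conj]
      ring
    · refine integral_congr_ae (Eventually.of_forall fun z => ?_)
      simp only [four_neg, map_mul, Complex.conj_conj]
      ring
  rw [h1, h3]
  refine (norm_integral_le_integral_norm _).trans ?_
  have h5 : ∀ z, ‖(fourier j (u z) : ℂ) * (pj q D j g (x₀ + p • z) *
      conj (pj p D' j g' (x₀ + q • z)))‖ =
      ‖pj q D j g (x₀ + p • z)‖ * ‖pj p D' j g' (x₀ + q • z)‖ := by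
    intro z
    rw [norm_mul, norm_four, one_mul, norm_mul, RCLike.norm_conj]
  simp only [h5]
  refine (cauchy hG2 hG2').trans (le_of_eq ?_)
  unfold ms
  have h6 : ∫ z, ‖pj q D j g (x₀ + p • z)‖ ^ 2 ∂(mm r) = ∫ z, ‖pj q D j g z‖ ^ 2 ∂(mm r) := by
    have h7 : AEStronglyMeasurable (fun z => ‖pj q D j g z‖ ^ 2)
        (Measure.map (fun z : T r => x₀ + p • z) (mm r)) := by
      rw [hmp.map_eq]
      exact (hG.aestronglyMeasurable.norm.pow 2)
    have h8 := integral_map hmp.measurable.aemeasurable h7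
    rw [hmp.map_eq] at h8
    exact h8.symm
  have h6' : ∫ z, ‖pj p D' j g' (x₀ + q • z)‖ ^ 2 ∂(mm r) =
      ∫ z, ‖pj p D' j g' z‖ ^ 2 ∂(mm r) := by
    have h7 : AEStronglyMeasurable (fun z => ‖pj p D' j g' z‖ ^ 2)
        (Measure.map (fun z : T r => x₀ + q • z) (mm r)) := by
      rw [hmq.map_eq]
      exact (hG'.aestronglyMeasurable.norm.pow 2)
    have h8 := integral_map hmq.measurable.aemeasurable h7
    rw [hmq.map_eq] at h8
    exact h8.symm
  rw [h6, h6']

end Pool.Agent.Helper40.JZ
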