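import Pool.Agent.Helper40.JZ.Stmts

/-!
All masses tend to the square of the integral for `q → ∞` (MP_7a8f48_an).
-/

open Finset Filter MeasureTheory Topology
open scoped ComplexConjugate

namespace Pool.Agent.Helper98.JZ

open Pool.Agent.Helper40.JZ
open Pool.Agent.Helper16.AZ (T mm Ind)

theorem lift_smul {r : ℕ} {θ : T r} {f : T r → U} {q : ℕ} {a : ℤ} {D : T r → T r → U}
    (h : Lift θ f q a D) (j : ℤ) : Lift θ f q (j * a) (fun s x => j • D s x) := by
  obtain ⟨h1, h2, h3⟩ := h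
  refine ⟨fun s hs => (h1 s hs).const_smul j, fun s hs s' hs' => ?_, fun s hs => ?_⟩
  · filter_upwards [h2 s hs s' hs'] with x hx
    rw [hx, smul_add]
  · filter_upwards [h3 s hs] with x hx
    rw [mul_smul, mul_smul, ← smul_add, hx, smul_add]

theorem ms_smul {r : ℕ} (q : ℕ) (D : T r → T r → U) (j : ℤ) (g : T r → ℂ) :
    ms q D j g = ms q (fun s x => j • D s x) 1 g := by
  unfold ms pj
  simp [fourier_apply]

theorem ms_zero {r : ℕ} (q : ℕ) (D : T r → T r → U) (g : T r → ℂ) :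
    ms q D 0 g = ms q (fun _ _ => 0) 0 g := by
  unfold ms pj
  simp

/-- the sum over a finite set -/
theorem fin_bound (B : Finset ℤ) (b t : ℤ → ℝ) (a : ℤ) (ha : a ≠ 0) (M₀ η δ : ℝ) (hM : 0 ≤ M₀)
    (hη : 0 ≤ η) (hB : ∀ J : Finset ℤ, Disjoint J B → ∑ n ∈ J, b n ≤ δ) (h0 : t 0 ≤ M₀)
    (h1 : ∀ j : ℤ, j ≠ 0 → j * a ∈ B → t j ≤ η) (h2 : ∀ j : ℤ, t j ≤ b (j * a))
    (hz : (0 : ℤ) ∈ B) (J : Finset ℤ) : ∑ j ∈ J, t j ≤ M₀ + B.card * η + δ := by
  classical
  have hinj : Function.Injective fun j : ℤ => j * a := mul_left_injective₀ ha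
  rw [← sum_filter_add_sum_filter_not J (fun j => j * a ∈ B)]
  have k1 : ∑ j ∈ J with j * a ∈ B, t j ≤ M₀ + B.card * η := by
    have k3 : ∀ j ∈ J.filter (fun j => j * a ∈ B), t j ≤ (if j = 0 then M₀ else 0) + η := by
      intro j hj
      rw [mem_filter] at hj
      split_ifs with hj0
      · rw [hj0]; linarith
      · rw [zero_add]; exact h1 j hj0 hj.2
    refine (sum_le_sum k3).trans ?_
    rw [sum_add_distrib, sum_const, nsmul_eq_mul]
    refine add_le_add ?_ (mul_le_mul_of_nonneg_right ?_ hη)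
    · rw [sum_ite_eq']
      split_ifs
      · exact le_rfl
      · exact hM
    · have : (J.filter (fun j => j * a ∈ B)).card ≤ B.card := by
        refine card_le_card_of_injOn (fun j => j * a) (fun j hj => ?_) hinj.injOn
        have hj' := Finset.mem_coe.1 hj
        rw [mem_filter] at hj'
        exact hj'.2
      exact_mod_cast this
  have k2 : ∑ j ∈ J with ¬ j * a ∈ B, t j ≤ δ := by
    refine (sum_le_sum fun j _ => h2 j).trans ?_
    rw [← sum_image (f := b) (g := fun j : ℤ => j * a) hinj.injOn]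
    refine hB _ ?_
    rw [Finset.disjoint_left]
    intro n hn hn'
    rw [mem_image] at hn
    obtain ⟨j, hj, rfl⟩ := hn
    rw [mem_filter] at hj
    exact hj.2 hn'
  linarith

end Pool.Agent.Helper98.JZ

namespace Pool.Agent.Helper40.JZ

open Pool.Agent.Helper16.AZ (T mm Ind)
open Pool.Agent.Helper98.JZ

/-- QLU -/
theorem st_QLU (hMSF : ST_MSF) (hFIB : ST_FIB) (hNTF : ST_NTF) (hQHS : ST_QHS) (hQBZ : ST_QBZ) :
    ST_QLU := by
  classical
  intro r θ f hθ hf hN G ε hG hε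
  obtain ⟨-, hF⟩ := hFIB r
  obtain ⟨hFm, hFs, hF0, -⟩ := hF G hG
  set b : ℤ → ℝ := fun a => ∫ x, ‖fib G a x‖ ^ 2 ∂(mm r) with hb
  obtain ⟨B₀, hB₀⟩ := summable_iff_vanishing_norm.1 hFs.summable (ε / 3) (by positivity)
  set B : Finset ℤ := insert 0 B₀ with hBdef
  have hB : ∀ J : Finset ℤ, Disjoint J B → ∑ n ∈ J, b n ≤ ε / 3 := by
    intro J hJ
    have h1 := hB₀ J (hJ.mono_right (subset_insert _ _))
    exact (le_abs_self _).trans h1.le
  -- the base
  have hQ := hQBZ r (fib G 0) (hFm 0)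
  rw [← hF0] at hQ
  have hQ1 : ∀ᶠ q : ℕ in atTop, ms q (fun _ _ => 0) 0 (fib G 0) <
      ‖∫ y, G y ∂(mm (r + 1))‖ ^ 2 + ε / 3 :=
    hQ.eventually_lt_const (by linarith)
  obtain ⟨q₁, hq₁⟩ := eventually_atTop.1 hQ1
  -- the finitely many coefficients
  set η : ℝ := ε / 3 / (B.card + 1) with hη
  have hη0 : 0 < η := by positivity
  have hQ2 : ∀ a : ℤ, ∃ q₀ : ℕ, a ≠ 0 → ∀ q ≥ q₀, q.Prime → ∀ D : T r → T r → U,
      Lift θ f q a D → ms q D 1 (fib G a) ≤ η := by
    intro a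
    by_cases ha : a = 0
    · exact ⟨0, fun h => absurd ha h⟩
    · obtain ⟨q₀, h⟩ := hQHS r θ f hθ hf hN a (fib G a) η ha (hFm a) hη0
      exact ⟨q₀, fun _ => h⟩
  choose Q hQ3 using hQ2
  refine ⟨max q₁ (B.sup Q), fun q hq hqp t ht => ?_⟩
  have hq1 : q₁ ≤ q := (le_max_left _ _).trans hq
  have hq2 : ∀ a ∈ B, Q a ≤ q := fun a ha =>
    (Finset.le_sup (f := Q) ha).trans ((le_max_right _ _).trans hq)
  cases t with
  | none =>
    have h1 := hq₁ q hq1
    change ms q (fun _ _ => 0) 0 (fib G 0) ≤ _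
    linarith
  | some t =>
    obtain ⟨a, D⟩ := t
    obtain ⟨ha, hD⟩ := ht
    have hsum := (hNTF r θ f q (some (a, D)) G G hqp.one_lt.le hf.measurable ⟨ha, hD⟩ hG hG).2.2.1
      (a, D) rfl
    change ∑' j : ℤ, ms q D j (fib G (j * a)) ≤ _
    refine hsum.tsum_le_of_sum_le fun J => ?_
    have h1 := fin_bound B b (fun j => ms q D j (fib G (j * a))) a ha
      (‖∫ y, G y ∂(mm (r + 1))‖ ^ 2 + ε / 3) η (ε / 3) (by positivity) hη0.le hB (by
        change ms q D 0 (fib G (0 * a)) ≤ _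
        rw [zero_mul, ms_zero]
        exact (hq₁ q hq1).le) (by
        intro j hj hjB
        change ms q D j (fib G (j * a)) ≤ _
        rw [ms_smul]
        exact hQ3 (j * a) (mul_ne_zero hj ha) q (hq2 _ hjB) hqp _ (lift_smul hD j)) (by
        intro j
        exact (hMSF r q D j (fib G (j * a)) (fib G (j * a)) hqp.one_lt.le hD.1 (hFm _)
          (hFm _)).2.2.1) (mem_insert_self _ _) J
    have h2 : (B.card : ℝ) * η ≤ ε / 3 := by
      rw [hη, mul_div_assoc', div_le_iff₀ (by positivity)]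
      nlinarith [hε]
    linarith

end Pool.Agent.Helper40.JZ
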